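import Pool.Agent.helper74.FD.SpecF

set_option autoImplicit false

open MeasureTheory Filter Set
open scoped ContDiff Topology ComplexConjugate

namespace Pool.Agent.FD

/-- Cauchy-Schwarz on an interval -/
theorem HUP_cs (g : ℝ → ℝ) (hg : Continuous g) (a : ℝ) (ha : 0 < a) :
    ∫ s in (0 : ℝ)..a, g s ≤ Real.sqrt (a * ∫ s in (0 : ℝ)..a, g s ^ 2) := by
  obtain ⟨I, hI⟩ : ∃ I : ℝ, I = ∫ s in (0 : ℝ)..a, g s := ⟨_, rfl⟩
  obtain ⟨J, hJ⟩ : ∃ J : ℝ, J = ∫ s in (0 : ℝ)..a, g s ^ 2 := ⟨_, rfl⟩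
  rw [← hI, ← hJ]
  apply Real.le_sqrt_of_sq_le
  have h1 : 0 ≤ ∫ s in (0 : ℝ)..a, (g s - I / a) ^ 2 :=
    intervalIntegral.integral_nonneg ha.le (fun s _ => sq_nonneg _)
  have h2 : ∫ s in (0 : ℝ)..a, (g s - I / a) ^ 2 = J - 2 * (I / a) * I + (I / a) ^ 2 * a := by
    have e : (fun s => (g s - I / a) ^ 2) = fun s => g s ^ 2 - 2 * (I / a) * g s + (I / a) ^ 2 := by
      funext s; ring
    have c1 : IntervalIntegrable (fun s => g s ^ 2) volume 0 a := (hg.pow 2).intervalIntegrable _ _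
    have c2 : IntervalIntegrable (fun s => 2 * (I / a) * g s) volume 0 a := (continuous_const.mul hg).intervalIntegrable _ _
    have c3 : IntervalIntegrable (fun s => g s ^ 2 - 2 * (I / a) * g s) volume 0 a := c1.sub c2
    rw [e, intervalIntegral.integral_add c3 intervalIntegrable_const, intervalIntegral.integral_sub c1 c2,
      intervalIntegral.integral_const_mul, intervalIntegral.integral_const, ← hI, ← hJ]
    simp only [sub_zero, smul_eq_mul]
    ring
  rw [h2] at h1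
  have h3 : J - 2 * (I / a) * I + (I / a) ^ 2 * a = J - I ^ 2 / a := by
    field_simp
    ring
  rw [h3] at h1
  have h4 : I ^ 2 / a ≤ J := by linarith
  rw [div_le_iff₀ ha] at h4
  linarith

theorem HUP_norm_exp (s : ℝ) (z : ℂ) :
    ‖Complex.exp (2 * Real.pi * s * z * Complex.I)‖ = Real.exp (-(2 * Real.pi * z.im) * s) := by
  rw [Complex.norm_exp]
  congr 1
  simp [Complex.mul_re, Complex.mul_im]
  ring

theorem HUP_ne (z : ℂ) (hz : 0 < z.im) (ξ : ℝ) : z + ξ ≠ 0 := by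
  intro h
  have := congrArg Complex.im h
  simp at this
  linarith

/-- (i) -/
theorem HUP_one (m : ℝ → ℂ) (hm : Continuous m) (hmi : Integrable m) (z : ℂ) (hz : 0 < z.im) :
    Hf m z = ∫ s in Ioi (0 : ℝ), fti m s * Complex.exp (2 * Real.pi * s * z * Complex.I) := by
  have hpi := Real.pi_pos
  obtain ⟨f, hf⟩ : ∃ f : ℝ → ℝ → ℂ, f = fun s ξ => m ξ * Complex.exp (((2 * Real.pi * s * ξ : ℝ) : ℂ) * Complex.I) *
      Complex.exp (2 * Real.pi * s * z * Complex.I) := ⟨_, rfl⟩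
  have hnorm : ∀ s ξ, ‖f s ξ‖ = Real.exp (-(2 * Real.pi * z.im) * s) * ‖m ξ‖ := by
    intro s ξ
    rw [hf]
    show ‖m ξ * Complex.exp (((2 * Real.pi * s * ξ : ℝ) : ℂ) * Complex.I) * Complex.exp (2 * Real.pi * s * z * Complex.I)‖ = _
    rw [norm_mul, norm_mul, Complex.norm_exp_ofReal_mul_I, HUP_norm_exp, mul_one, mul_comm]
  have hfc : Continuous (Function.uncurry f) := by
    rw [hf]
    show Continuous (fun p : ℝ × ℝ => m p.2 * Complex.exp (((2 * Real.pi * p.1 * p.2 : ℝ) : ℂ) * Complex.I) *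
      Complex.exp (2 * Real.pi * p.1 * z * Complex.I))
    fun_prop
  have hexp : Integrable (fun s : ℝ => Real.exp (-(2 * Real.pi * z.im) * s)) (volume.restrict (Ioi (0 : ℝ))) :=
    integrableOn_exp_mul_Ioi (by have := mul_pos hpi hz; linarith) 0
  have hint : Integrable (Function.uncurry f) ((volume.restrict (Ioi (0 : ℝ))).prod volume) := by
    have h1 := hexp.mul_prod hmi.norm
    refine h1.mono' hfc.aestronglyMeasurable (Filter.Eventually.of_forall fun p => ?_)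
    exact (hnorm p.1 p.2).le
  have hL : ∫ s in Ioi (0 : ℝ), fti m s * Complex.exp (2 * Real.pi * s * z * Complex.I) =
      ∫ s in Ioi (0 : ℝ), ∫ ξ : ℝ, f s ξ := by
    refine integral_congr_ae (Filter.Eventually.of_forall fun s => ?_)
    show fti m s * Complex.exp (2 * Real.pi * s * z * Complex.I) = ∫ ξ : ℝ, f s ξ
    unfold fti
    rw [← integral_mul_const, hf]
  rw [hL, integral_integral_swap hint]
  unfold Hf
  rw [← integral_const_mul]
  refine integral_congr_ae (Filter.Eventually.of_forall fun ξ => ?_)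
  show Complex.I / (2 * Real.pi) * (m ξ / (z + ξ)) = ∫ s in Ioi (0 : ℝ), f s ξ
  have hzx := HUP_ne z hz ξ
  have hpc : (Real.pi : ℂ) ≠ 0 := by exact_mod_cast hpi.ne'
  have h2 : ∀ s : ℝ, f s ξ = m ξ * Complex.exp ((2 * Real.pi * (z + ξ) * Complex.I) * s) := by
    intro s
    rw [hf]
    show m ξ * Complex.exp (((2 * Real.pi * s * ξ : ℝ) : ℂ) * Complex.I) * Complex.exp (2 * Real.pi * s * z * Complex.I) = _
    rw [mul_assoc, ← Complex.exp_add]
    congr 2
    push_cast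
    ring
  have hre : (2 * Real.pi * (z + ξ) * Complex.I).re < 0 := by
    have : (2 * Real.pi * (z + ξ) * Complex.I).re = -(2 * Real.pi * z.im) := by
      simp [Complex.mul_re, Complex.mul_im]
    rw [this]
    have := mul_pos hpi hz
    linarith
  have h3 : ∫ s in Ioi (0 : ℝ), f s ξ = m ξ * ∫ s in Ioi (0 : ℝ), Complex.exp ((2 * Real.pi * (z + ξ) * Complex.I) * s) := by
    rw [← integral_const_mul]
    exact integral_congr_ae (Filter.Eventually.of_forall h2)
  rw [h3, integral_exp_mul_complex_Ioi hre 0]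
  have hI : Complex.I ≠ 0 := Complex.I_ne_zero
  rw [Complex.ofReal_zero, mul_zero, Complex.exp_zero]
  field_simp
  rw [Complex.I_sq]
  ring

theorem HUP_proof (hFT0 : FT0_stmt) : HUP_stmt := by
  intro m hm hcs hM
  have hpi := Real.pi_pos
  have hmi : Integrable m := hm.integrable_of_hasCompactSupport hcs
  have hcs1 : HasCompactSupport (fun ξ : ℝ => ‖m ξ‖ * (1 + |ξ|)) := by
    have := hcs.norm.mul_right (f' := fun ξ : ℝ => (1 + |ξ|))
    exact this
  have hmw : Integrable (fun ξ : ℝ => ‖m ξ‖ * (1 + |ξ|)) :=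
    Continuous.integrable_of_hasCompactSupport (by fun_prop) hcs1
  have hM1 : ∫ ξ, ‖m ξ‖ ≤ 1 := by
    refine le_trans (integral_mono hmi.norm hmw fun ξ => ?_) hM
    show ‖m ξ‖ ≤ ‖m ξ‖ * (1 + |ξ|)
    have h1 := norm_nonneg (m ξ)
    have h2 := abs_nonneg ξ
    nlinarith
  obtain ⟨-, hfc, -, hfb⟩ := hFT0.1 m hmi
  have hHn : ∀ z : ℂ, ‖Hf m z‖ = 1 / (2 * Real.pi) * ‖∫ ξ : ℝ, m ξ / (z + ξ)‖ := by
    intro z
    unfold Hf
    rw [norm_mul, norm_div, Complex.norm_I, norm_mul, Complex.norm_real, Real.norm_of_nonneg hpi.le]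
    simp
  have hmeas : ∀ z : ℂ, AEStronglyMeasurable (fun ξ : ℝ => m ξ / (z + ξ)) volume := by
    intro z
    have h1 : Measurable (fun ξ : ℝ => m ξ / (z + ξ)) :=
      hm.measurable.div (measurable_const.add Complex.measurable_ofReal)
    exact h1.aestronglyMeasurable
  have hint : ∀ (z : ℂ) (d : ℝ), 0 < d → (∀ ξ : ℝ, m ξ ≠ 0 → d ≤ ‖z + ξ‖) → Integrable (fun ξ : ℝ => m ξ / (z + ξ)) ∧
      ∀ ξ : ℝ, ‖m ξ / (z + ξ)‖ ≤ ‖m ξ‖ / d := by
    intro z d hd hz
    have hb : ∀ ξ : ℝ, ‖m ξ / (z + ξ)‖ ≤ ‖m ξ‖ / d := by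
      intro ξ
      by_cases h : m ξ = 0
      · rw [h]; simp
      · rw [norm_div]
        exact div_le_div_of_nonneg_left (norm_nonneg _) hd (hz ξ h)
    exact ⟨(hmi.norm.div_const d).mono' (hmeas z) (Filter.Eventually.of_forall hb), hb⟩
  refine ⟨fun z hz => HUP_one m hm hmi z hz, ?_, ?_, ?_, ?_⟩
  · -- (ii)
    intro z a hz ha
    rw [HUP_one m hm hmi z hz]
    have hy : 0 < 2 * Real.pi * z.im := by positivity
    have hexp : ∀ c : ℝ, IntegrableOn (fun s : ℝ => Real.exp (-(2 * Real.pi * z.im) * s)) (Ioi c) := fun c =>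
      integrableOn_exp_mul_Ioi (by linarith) c
    have hn : ∀ s : ℝ, ‖fti m s * Complex.exp (2 * Real.pi * s * z * Complex.I)‖ =
        ‖fti m s‖ * Real.exp (-(2 * Real.pi * z.im) * s) := by
      intro s; rw [norm_mul, HUP_norm_exp]
    have hcont : Continuous (fun s : ℝ => fti m s * Complex.exp (2 * Real.pi * s * z * Complex.I)) := by
      fun_prop
    have hI : ∀ c : ℝ, IntegrableOn (fun s : ℝ => fti m s * Complex.exp (2 * Real.pi * s * z * Complex.I)) (Ioi c) := by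
      intro c
      refine (hexp c).mono' hcont.aestronglyMeasurable (Filter.Eventually.of_forall fun s => ?_)
      rw [hn s]
      have h1 : ‖fti m s‖ ≤ 1 := (hfb s).trans hM1
      have h2 := Real.exp_pos (-(2 * Real.pi * z.im) * s)
      nlinarith
    have hsplit : ∫ s in Ioi (0 : ℝ), fti m s * Complex.exp (2 * Real.pi * s * z * Complex.I) =
        (∫ s in (0 : ℝ)..a, fti m s * Complex.exp (2 * Real.pi * s * z * Complex.I)) +
          ∫ s in Ioi a, fti m s * Complex.exp (2 * Real.pi * s * z * Complex.I) := by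
      rw [intervalIntegral.integral_of_le ha.le, ← setIntegral_union _ measurableSet_Ioi, Ioc_union_Ioi_eq_Ioi ha.le]
      · exact (hI 0).mono_set Ioc_subset_Ioi_self
      · exact hI a
      · exact Set.Ioc_disjoint_Ioi le_rfl
    rw [hsplit]
    refine (norm_add_le _ _).trans (add_le_add ?_ ?_)
    · refine (intervalIntegral.norm_integral_le_integral_norm ha.le).trans ?_
      refine le_trans (intervalIntegral.integral_mono_on ha.le (hcont.norm.intervalIntegrable _ _)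
        (hfc.norm.intervalIntegrable _ _) ?_) (HUP_cs (fun s => ‖fti m s‖) hfc.norm a ha)
      intro s hs
      rw [hn s]
      have h1 : Real.exp (-(2 * Real.pi * z.im) * s) ≤ 1 := by
        rw [Real.exp_le_one_iff]
        have := mul_nonneg hy.le hs.1
        linarith
      have h2 := norm_nonneg (fti m s)
      nlinarith
    · refine (norm_integral_le_integral_norm _).trans ?_
      have h1 : ∫ s in Ioi a, ‖fti m s * Complex.exp (2 * Real.pi * s * z * Complex.I)‖ ≤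
          ∫ s in Ioi a, Real.exp (-(2 * Real.pi * z.im) * s) := by
        refine integral_mono (hI a).norm (hexp a) fun s => ?_
        show ‖fti m s * Complex.exp (2 * Real.pi * s * z * Complex.I)‖ ≤ _
        rw [hn s]
        have h1 : ‖fti m s‖ ≤ 1 := (hfb s).trans hM1
        have h2 := Real.exp_pos (-(2 * Real.pi * z.im) * s)
        nlinarith
      refine h1.trans (le_of_eq ?_)
      rw [integral_exp_mul_Ioi (by linarith) a, neg_div_neg_eq]
      congr 2
      ring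
  · -- (iii)
    intro z hz
    have hz0 : 0 < z.im := by linarith
    have hzn : z ≠ 0 := by
      intro h; rw [h] at hz0; simp at hz0
    have hzp : 0 < ‖z‖ := norm_pos_iff.2 hzn
    have hge : ∀ ξ : ℝ, 1 ≤ ‖z + ξ‖ := by
      intro ξ
      have h1 : |(z + ξ).im| ≤ ‖z + ξ‖ := Complex.abs_im_le_norm _
      have h2 : (z + ξ).im = z.im := by simp
      rw [h2] at h1
      exact (hz.trans (le_abs_self _)).trans h1
    have hb : ∀ ξ : ℝ, ‖m ξ / (z + ξ)‖ ≤ ‖z‖⁻¹ * (‖m ξ‖ * (1 + |ξ|)) := by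
      intro ξ
      rw [norm_div, div_le_iff₀ (by linarith [hge ξ])]
      have h1 : ‖z‖ ≤ ‖z + ξ‖ + |ξ| := by
        have h2 : z = (z + ξ) - ξ := by ring
        calc ‖z‖ = ‖(z + ξ) - ξ‖ := by rw [← h2]
          _ ≤ ‖z + ξ‖ + ‖(ξ : ℂ)‖ := norm_sub_le _ _
          _ = ‖z + ξ‖ + |ξ| := by rw [Complex.norm_real, Real.norm_eq_abs]
      have h3 : ‖z‖ ≤ (1 + |ξ|) * ‖z + ξ‖ := by
        have := mul_le_mul_of_nonneg_left (hge ξ) (abs_nonneg ξ)
        nlinarith
      have h4 : 1 ≤ ‖z‖⁻¹ * ((1 + |ξ|) * ‖z + ξ‖) := by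
        rw [inv_mul_eq_div, le_div_iff₀ hzp, one_mul]
        exact h3
      calc ‖m ξ‖ = ‖m ξ‖ * 1 := (mul_one _).symm
        _ ≤ ‖m ξ‖ * (‖z‖⁻¹ * ((1 + |ξ|) * ‖z + ξ‖)) := mul_le_mul_of_nonneg_left h4 (norm_nonneg _)
        _ = ‖z‖⁻¹ * (‖m ξ‖ * (1 + |ξ|)) * ‖z + ξ‖ := by ring
    have h5 : ‖∫ ξ : ℝ, m ξ / (z + ξ)‖ ≤ ‖z‖⁻¹ := by
      calc ‖∫ ξ : ℝ, m ξ / (z + ξ)‖ ≤ ∫ ξ : ℝ, ‖z‖⁻¹ * (‖m ξ‖ * (1 + |ξ|)) :=
            norm_integral_le_of_norm_le (hmw.const_mul _) (Filter.Eventually.of_forall hb)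
        _ = ‖z‖⁻¹ * ∫ ξ : ℝ, ‖m ξ‖ * (1 + |ξ|) := integral_const_mul _ _
        _ ≤ ‖z‖⁻¹ * 1 := mul_le_mul_of_nonneg_left hM (inv_nonneg.2 hzp.le)
        _ = ‖z‖⁻¹ := mul_one _
    rw [hHn]
    calc 1 / (2 * Real.pi) * ‖∫ ξ : ℝ, m ξ / (z + ξ)‖ ≤ 1 / (2 * Real.pi) * ‖z‖⁻¹ :=
          mul_le_mul_of_nonneg_left h5 (by positivity)
      _ = 1 / (2 * Real.pi * ‖z‖) := by field_simp
  · -- (iv)
    intro z d hd hz
    have h1 := (hint z d hd hz).2
    have h5 : ‖∫ ξ : ℝ, m ξ / (z + ξ)‖ ≤ 1 / d := by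
      calc ‖∫ ξ : ℝ, m ξ / (z + ξ)‖ ≤ ∫ ξ : ℝ, ‖m ξ‖ / d :=
            norm_integral_le_of_norm_le (hmi.norm.div_const d) (Filter.Eventually.of_forall h1)
        _ = (∫ ξ : ℝ, ‖m ξ‖) / d := integral_div _ _
        _ ≤ 1 / d := div_le_div_of_nonneg_right hM1 hd.le
    rw [hHn]
    calc 1 / (2 * Real.pi) * ‖∫ ξ : ℝ, m ξ / (z + ξ)‖ ≤ 1 / (2 * Real.pi) * (1 / d) :=
          mul_le_mul_of_nonneg_left h5 (by positivity)
      _ = 1 / (2 * Real.pi * d) := by field_simp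
  · -- (v)
    intro z d hd hz
    have hball : ∀ w ∈ Metric.ball z (d / 2), ∀ ξ : ℝ, m ξ ≠ 0 → d / 2 ≤ ‖w + ξ‖ := by
      intro w hw ξ hξ
      have h1 := hz ξ hξ
      rw [Metric.mem_ball, dist_eq_norm] at hw
      have h2 : z + ξ = (w + ξ) - (w - z) := by ring
      have h3 : ‖z + ξ‖ ≤ ‖w + ξ‖ + ‖w - z‖ := by
        calc ‖z + ξ‖ = ‖(w + ξ) - (w - z)‖ := by rw [← h2]
          _ ≤ _ := norm_sub_le _ _
      linarith
    have hmeas' : AEStronglyMeasurable (fun ξ : ℝ => -(m ξ) / (z + ξ) ^ 2) volume := by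
      have h1 : Measurable (fun ξ : ℝ => -(m ξ) / (z + ξ) ^ 2) :=
        hm.measurable.neg.div ((measurable_const.add Complex.measurable_ofReal).pow_const 2)
      exact h1.aestronglyMeasurable
    have hder := hasDerivAt_integral_of_dominated_loc_of_deriv_le (𝕜 := ℂ) (μ := (volume : Measure ℝ))
      (F := fun (w : ℂ) (ξ : ℝ) => m ξ / (w + ξ)) (F' := fun (w : ℂ) (ξ : ℝ) => -(m ξ) / (w + ξ) ^ 2) (x₀ := z)
      (s := Metric.ball z (d / 2)) (bound := fun ξ => ‖m ξ‖ / (d / 2) ^ 2)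
      (Metric.ball_mem_nhds z (by positivity)) (Filter.Eventually.of_forall hmeas) (hint z d hd hz).1 hmeas'
      (Filter.Eventually.of_forall fun ξ w hw => ?_) (hmi.norm.div_const _)
      (Filter.Eventually.of_forall fun ξ w hw => ?_)
    · have h6 := hder.2.differentiableAt
      show DifferentiableAt ℂ (fun w => Complex.I / (2 * Real.pi) * ∫ ξ : ℝ, m ξ / (w + ξ)) z
      exact h6.const_mul _
    · by_cases h : m ξ = 0
      · show ‖-(m ξ) / (w + ξ) ^ 2‖ ≤ ‖m ξ‖ / (d / 2) ^ 2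
        rw [h]; simp
      · show ‖-(m ξ) / (w + ξ) ^ 2‖ ≤ ‖m ξ‖ / (d / 2) ^ 2
        rw [norm_div, norm_neg, norm_pow]
        have h7 := hball w hw ξ h
        exact div_le_div_of_nonneg_left (norm_nonneg _) (by positivity) (pow_le_pow_left₀ (by positivity) h7 2)
    · by_cases h : m ξ = 0
      · show HasDerivAt (fun w : ℂ => m ξ / (w + ξ)) (-(m ξ) / (w + ξ) ^ 2) w
        rw [h]
        simp only [zero_div, neg_zero]
        exact hasDerivAt_const _ _
      · show HasDerivAt (fun w : ℂ => m ξ / (w + ξ)) (-(m ξ) / (w + ξ) ^ 2) w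
        have h7 := hball w hw ξ h
        have h8 : w + ξ ≠ 0 := by
          intro h9
          rw [h9, norm_zero] at h7
          linarith
        have h10 : HasDerivAt (fun w : ℂ => w + (ξ : ℂ)) 1 w := (hasDerivAt_id w).add_const _
        have h11 := (hasDerivAt_const w (m ξ)).div h10 h8
        have h12 : (0 * (w + (ξ : ℂ)) - m ξ * 1) / (w + ξ) ^ 2 = -(m ξ) / (w + ξ) ^ 2 := by ring
        rw [h12] at h11
        exact h11

end Pool.Agent.FD
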