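import Pool.Agent.helper74.FD.SpecG

set_option autoImplicit false

open scoped MatrixGroups ContDiff Topology UpperHalfPlane ComplexConjugate
open UpperHalfPlane MeasureTheory Filter Set

namespace Pool.Agent.FD

open Pool.Agent.RS Pool.Agent.MS
open Pool.Agent.EN (XG MG mkX mkM fl pr)

theorem KDC_mat (x τ v : ℝ) : (nM x * aM τ * lM v : SL(2, ℝ)).1 =
    !![Real.exp (τ / 2) + x * Real.exp (-(τ / 2)) * v, x * Real.exp (-(τ / 2)); Real.exp (-(τ / 2)) * v, Real.exp (-(τ / 2))] := by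
  show (nM x).1 * (aM τ).1 * (lM v).1 = _
  unfold nM aM lM
  simp only [Matrix.mul_fin_two]
  ext i j
  fin_cases i <;> fin_cases j <;> simp

theorem KDC_act (k : SL(2, ℝ)) (w : ℍ) :
    (k • w).re * (k.1 1 0 * w.re + k.1 1 1) - (k • w).im * (k.1 1 0 * w.im) = k.1 0 0 * w.re + k.1 0 1 ∧
    (k • w).re * (k.1 1 0 * w.im) + (k • w).im * (k.1 1 0 * w.re + k.1 1 1) = k.1 0 0 * w.im := by
  have h1 : ((k • w : ℍ) : ℂ) * (((k.1 1 0 : ℝ) : ℂ) * (w : ℂ) + ((k.1 1 1 : ℝ) : ℂ)) =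
      ((k.1 0 0 : ℝ) : ℂ) * (w : ℂ) + ((k.1 0 1 : ℝ) : ℂ) := by
    have hne : ((k.1 1 0 : ℝ) : ℂ) * (w : ℂ) + ((k.1 1 1 : ℝ) : ℂ) ≠ 0 := by
      intro h0
      have him := congrArg Complex.im h0
      have hre := congrArg Complex.re h0
      simp only [Complex.add_im, Complex.mul_im, Complex.ofReal_re, Complex.ofReal_im, zero_mul, add_zero,
        Complex.zero_im, Complex.add_re, Complex.mul_re, sub_zero, Complex.zero_re] at him hre
      have hw : 0 < (w : ℂ).im := w.im_pos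
      have hc : k.1 1 0 = 0 := by
        rcases mul_eq_zero.1 him with h | h
        · exact h
        · exact absurd h hw.ne'
      rw [hc, zero_mul, zero_add] at hre
      have hdet := k.2
      rw [Matrix.det_fin_two, hc, hre] at hdet
      simp at hdet
    have h2 := UpperHalfPlane.specialLinearGroup_apply k w
    have h3 : ((k • w : ℍ) : ℂ) = (((k.1 0 0 : ℝ) : ℂ) * (w : ℂ) + ((k.1 0 1 : ℝ) : ℂ)) /
        (((k.1 1 0 : ℝ) : ℂ) * (w : ℂ) + ((k.1 1 1 : ℝ) : ℂ)) := by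
      rw [h2]
      rfl
    rw [h3, div_mul_cancel₀ _ hne]
  have hre := congrArg Complex.re h1
  have him := congrArg Complex.im h1
  simp only [Complex.add_im, Complex.mul_im, Complex.ofReal_re, Complex.ofReal_im, zero_mul, add_zero,
    Complex.add_re, Complex.mul_re, sub_zero] at him hre
  exact ⟨hre, him⟩

theorem KDC_proof (hGLC : RS.GLC_stmt) : KDC_stmt := by
  intro k w δ1 hδ hc hx hy hY
  obtain ⟨E1, E2⟩ := KDC_act k w
  have hdet := k.2
  rw [Matrix.det_fin_two] at hdet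
  have hy0 : 0 < w.im := w.im_pos
  have hY0 : 0 < (k • w).im := (k • w).im_pos
  obtain ⟨a, ha⟩ : ∃ a, a = k.1 0 0 := ⟨_, rfl⟩
  obtain ⟨b, hb⟩ : ∃ b, b = k.1 0 1 := ⟨_, rfl⟩
  obtain ⟨c, hcc⟩ : ∃ c, c = k.1 1 0 := ⟨_, rfl⟩
  obtain ⟨d, hd⟩ : ∃ d, d = k.1 1 1 := ⟨_, rfl⟩
  rw [← ha, ← hb, ← hcc, ← hd] at E1
  rw [← ha, ← hcc, ← hd] at E2
  rw [← ha, ← hb, ← hcc, ← hd] at hdet
  rw [← hcc] at hc
  obtain ⟨x, hxx⟩ : ∃ x, x = w.re := ⟨_, rfl⟩
  obtain ⟨y, hyy⟩ : ∃ y, y = w.im := ⟨_, rfl⟩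
  obtain ⟨X, hXX⟩ : ∃ X, X = (k • w).re := ⟨_, rfl⟩
  obtain ⟨Y, hYY⟩ : ∃ Y, Y = (k • w).im := ⟨_, rfl⟩
  rw [← hxx, ← hyy, ← hXX, ← hYY] at E1 E2
  rw [← hxx, ← hXX]
  rw [← hxx] at hx
  rw [← hyy] at hy hy0
  rw [← hYY] at hY hY0
  have hδ0 : 0 ≤ δ1 := (abs_nonneg c).trans hc
  -- numerical bounds
  have hq : Real.exp (1 / 4) ≤ 13 / 10 := by
    have h1 : Real.exp (1 / 4) ^ 4 = Real.exp 1 := by
      rw [← Real.exp_nat_mul]; norm_num
    have h2 : Real.exp (1 / 4) ^ 4 ≤ (13 / 10 : ℝ) ^ 4 := by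
      rw [h1]
      have := Real.exp_one_lt_d9
      norm_num
      linarith
    exact le_of_pow_le_pow_left₀ (by norm_num) (by norm_num) h2
  have hbd : ∀ t : ℝ, 0 < t → |Real.log t| ≤ 1 / 4 → 10 / 13 ≤ t ∧ t ≤ 13 / 10 := by
    intro t ht hl
    obtain ⟨l1, l2⟩ := abs_le.1 hl
    constructor
    · have h1 : Real.exp (-(1 / 4)) ≤ t := by
        rw [← Real.exp_log ht]
        exact Real.exp_le_exp.2 (by linarith)
      have h2 : 10 / 13 ≤ Real.exp (-(1 / 4)) := by
        rw [Real.exp_neg]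
        have h3 : (13 / 10 : ℝ)⁻¹ ≤ (Real.exp (1 / 4))⁻¹ := inv_anti₀ (Real.exp_pos _) hq
        norm_num at h3 ⊢
        linarith
      linarith
    · rw [← Real.exp_log ht]
      exact (Real.exp_le_exp.2 l2).trans hq
  obtain ⟨y1, y2⟩ := hbd y hy0 hy
  obtain ⟨Y1, Y2⟩ := hbd Y hY0 hY
  -- the norm
  obtain ⟨N, hN⟩ : ∃ N, N = (c * x + d) ^ 2 + (c * y) ^ 2 := ⟨_, rfl⟩
  have hYN : Y * N = y := by
    rw [hN]
    linear_combination (c * x + d) * E2 - (c * y) * E1 + y * hdet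
  have hXN : (b - d * X) * N = -(c * (x ^ 2 + y ^ 2) + d * x) := by
    have h1 : X * N = (a * x + b) * (c * x + d) + a * y * (c * y) := by
      rw [hN]
      linear_combination (c * x + d) * E1 + (c * y) * E2
    have h2 : (b - d * X) * N = b * N - d * (X * N) := by ring
    rw [h2, h1, hN]
    linear_combination (-(c * x + d) * x - c * y ^ 2) * hdet
  have hN0 : 0 < N := by
    by_contra h
    have h1 : Y * N ≤ 0 := mul_nonpos_of_nonneg_of_nonpos hY0.le (not_lt.1 h)
    linarith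
  have hN1 : 100 / 169 ≤ N := by
    have h1 : y ≤ 13 / 10 * N := by
      rw [← hYN]; exact mul_le_mul_of_nonneg_right Y2 hN0.le
    linarith
  have hN2 : N ≤ 169 / 100 := by
    have h1 : 10 / 13 * N ≤ y := by
      rw [← hYN]; exact mul_le_mul_of_nonneg_right Y1 hN0.le
    linarith
  obtain ⟨c1, c2⟩ := abs_le.1 (hc.trans hδ)
  obtain ⟨x1, x2⟩ := abs_le.1 hx
  have hc2 : c ^ 2 ≤ 1 / 10000 := by nlinarith
  have hx2 : x ^ 2 ≤ 1 / 16 := by nlinarith
  have hy2 : y ^ 2 ≤ 169 / 100 := by nlinarith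
  have hcx : |c * x| ≤ 1 / 400 := by
    rw [abs_mul]
    have h1 : |c| ≤ 1 / 100 := hc.trans hδ
    have := mul_le_mul h1 hx (abs_nonneg x) (by norm_num)
    linarith
  have hcy : (c * y) ^ 2 ≤ 169 / 1000000 := by
    rw [mul_pow]
    have := mul_le_mul hc2 hy2 (sq_nonneg y) (by norm_num)
    linarith
  have hs1 : 769 / 1000 ≤ |c * x + d| := by
    have h1 : (769 / 1000 : ℝ) ^ 2 ≤ (c * x + d) ^ 2 := by
      have h2 : (c * x + d) ^ 2 = N - (c * y) ^ 2 := by rw [hN]; ring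
      rw [h2]
      norm_num
      linarith
    have h3 := sq_le_sq.1 h1
    rw [abs_of_nonneg (by norm_num : (0 : ℝ) ≤ 769 / 1000)] at h3
    exact h3
  have hs2 : |c * x + d| ≤ 13 / 10 := by
    have h1 : (c * x + d) ^ 2 ≤ (13 / 10 : ℝ) ^ 2 := by
      have h2 : (c * x + d) ^ 2 = N - (c * y) ^ 2 := by rw [hN]; ring
      rw [h2]
      have := sq_nonneg (c * y)
      norm_num
      linarith
    exact abs_le_of_sq_le_sq h1 (by norm_num)
  have hd1 : 76 / 100 ≤ |d| := by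
    have h1 : |c * x + d| ≤ |c * x| + |d| := abs_add_le _ _
    linarith
  have hd2 : |d| ≤ 131 / 100 := by
    have h1 : |d| ≤ |c * x + d| + |c * x| := by
      have h2 : d = (c * x + d) - c * x := by ring
      calc |d| = |(c * x + d) - c * x| := by rw [← h2]
        _ ≤ _ := abs_sub _ _
    linarith
  have hd0 : 0 < |d| := by linarith
  have hdne : d ≠ 0 := abs_pos.1 hd0
  have hex1 : Real.exp (-2 * Real.log |d| / 2) = |d|⁻¹ := by
    rw [show -2 * Real.log |d| / 2 = -Real.log |d| by ring, Real.exp_neg, Real.exp_log hd0]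
  have hex2 : Real.exp (-(-2 * Real.log |d| / 2)) = |d| := by
    rw [show -(-2 * Real.log |d| / 2) = Real.log |d| by ring, Real.exp_log hd0]
  refine ⟨b / d, -2 * Real.log |d|, c / d, ?_, ?_, ?_, ?_⟩
  · have hM := KDC_mat (b / d) (-2 * Real.log |d|) (c / d)
    rw [hex1, hex2] at hM
    have hk : k.1 = !![a, b; c, d] := by
      rw [ha, hb, hcc, hd]
      exact Matrix.eta_fin_two _
    rcases lt_or_gt_of_ne hdne with hneg | hpos
    · right
      apply Subtype.ext
      show k.1 = -(nM (b / d) * aM (-2 * Real.log |d|) * lM (c / d) : SL(2, ℝ)).1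
      rw [hk, hM, abs_of_neg hneg]
      ext i j
      fin_cases i <;> fin_cases j
      · show a = -((-d)⁻¹ + b / d * (-d) * (c / d))
        field_simp
        linear_combination hdet
      · show b = -(b / d * (-d))
        field_simp
      · show c = -(-d * (c / d))
        field_simp
      · show d = -(-d)
        ring
    · left
      apply Subtype.ext
      show k.1 = (nM (b / d) * aM (-2 * Real.log |d|) * lM (c / d) : SL(2, ℝ)).1
      rw [hk, hM, abs_of_pos hpos]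
      ext i j
      fin_cases i <;> fin_cases j
      · show a = d⁻¹ + b / d * d * (c / d)
        field_simp
        linear_combination hdet
      · show b = b / d * d
        field_simp
      · show c = d * (c / d)
        field_simp
      · rfl
  · have h1 := Real.log_le_sub_one_of_pos hd0
    have h2 := Real.one_sub_inv_le_log_of_pos hd0
    have h3 : |d|⁻¹ ≤ 100 / 76 := by
      rw [inv_le_comm₀ hd0 (by norm_num)]
      norm_num
      linarith
    rw [abs_le]
    constructor <;> linarith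
  · rw [abs_div, div_le_iff₀ hd0]
    nlinarith
  · have h1 : |b / d - X| * (N * |d|) = |c * (x ^ 2 + y ^ 2) + d * x| := by
      have h2 : (b / d - X) * (N * d) = -(c * (x ^ 2 + y ^ 2) + d * x) := by
        rw [← hXN]; field_simp
      have h3 := congrArg abs h2
      rw [abs_mul, abs_mul, abs_of_pos hN0, abs_neg] at h3
      exact h3
    have h4 : |c * (x ^ 2 + y ^ 2) + d * x| ≤ δ1 * (7 / 4 + 1 / 100) + |d| * |x| := by
      refine (abs_add_le _ _).trans (add_le_add ?_ (abs_mul d x).le)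
      rw [abs_mul, abs_of_nonneg (by positivity : 0 ≤ x ^ 2 + y ^ 2)]
      exact mul_le_mul hc (by linarith) (by positivity) hδ0
    have h5 : 4 / 10 ≤ N * |d| := by nlinarith
    have h6 : |d| / 10 ≤ N * |d| / 1 := by nlinarith
    have h7 : 0 ≤ |x| := abs_nonneg x
    have h8 : |b / d - X| * (N * |d|) ≤ 10 * (|x| + δ1) * (N * |d|) := by
      rw [h1]
      refine h4.trans ?_
      have h9 : δ1 * (7 / 4 + 1 / 100) ≤ 10 * δ1 * (N * |d|) := by nlinarith
      have h10 : |d| * |x| ≤ 10 * |x| * (N * |d|) := by nlinarith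
      nlinarith
    exact le_of_mul_le_mul_right h8 (by positivity)

end Pool.Agent.FD
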